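import Pool.Agent.H61.KW.TC

set_option autoImplicit false
set_option linter.unusedSectionVars false
set_option linter.unusedVariables false

open Topology Set
open Pool.Agent.H59 Pool.Agent.H64.LB Pool.Agent.H61.KU Pool.Agent.H61.KV Pool.Agent.H61.KW

namespace Pool.Agent.H92.KW.CA1

theorem lem (h : T_TFT) (h2 : T_R2A) (h4 : T_SCE) (h7 : T_DSB) {V : Type}
    [NormedAddCommGroup V] [NormedSpace ℝ V] [FiniteDimensional ℝ V] {m : PN 2 → V}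
    (hK : Kit m) {q q' a z a' z' t a1 : V} (hq : Ef m q) (hq' : Ef m q')
    (hov : Ov (Cn m) q q') (hP : Pyr (Cn m) q a z) (hP' : Pyr (Cn m) q' a' z')
    (hsc : Scx (Cn m) a) (ht : Ex (Cn m) t) (hta : t ∈ Fc (Cn m) a) (hta' : t ∈ Fc (Cn m) a')
    (ha1 : Ex (Cn m) a1) (ha1a : a1 ∈ Fc (Cn m) a) (ha1t : a1 ∉ Fc (Cn m) t) :
    (∀ p, Ef m p → p ∈ Fc (Cn m) (a + a') → a1 ∈ Fc (Cn m) p) ∧
      a + a' ∈ Fc (Cn m) (a' + a1) ∧ ¬ Fc (Cn m) (a' + a1) ⊆ Mh m := by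
  have hC := hK.cc
  have hqC := hK.mem q hq
  have hq'C := hK.mem q' hq'
  have hq4 := hK.rk4 q hq
  obtain ⟨haC, hzC, -, -⟩ := hP.ds
  obtain ⟨ha'C, hz'C, -, -⟩ := hP'.ds
  obtain ⟨haq, hzq⟩ := face hC hqC haC hzC hP.mem
  obtain ⟨ha'q, hz'q⟩ := face hC hq'C ha'C hz'C hP'.mem
  -- (i)
  have hi : a ∈ Fc (Cn m) (t + a1) := h4 V (Cn m) a t a1 hC haC hsc ht ha1 hta ha1a ha1t
  -- (ii)
  obtain ⟨-, -, hd, -, -, -⟩ := h7 V (Cn m) a z hC hP.ds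
  have hd1 : Dsum (Cn m) a1 z := hd a1 ha1a z (self hC hzC)
  have hr2 : rk (Cn m) (a1 + z) = 2 := by
    rw [(h7 V (Cn m) a1 z hC hd1).1, ex_rk hC ha1, ex_rk hC hP.ex]
  have hwC : a1 + z ∈ Cn m := hC.add _ ha1.1 _ hzC
  have hwM : a1 + z ∈ Mh m := hK.low _ hwC (by omega) (self hC hwC)
  have hq'wC : q' + (a1 + z) ∈ Cn m := hC.add _ hq'C _ hwC
  have hovw : Ov (Cn m) q' (a1 + z) := by
    refine ov_of hov ?_ (left_fc hC hq'C hwC)
    have h8 : t ∈ Fc (Cn m) (q' + (a1 + z)) :=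
      tra hC hq'wC (left_fc hC hq'C hwC) (tra hC hq'C ha'q hta')
    have h9 : a1 + z ∈ Fc (Cn m) (q' + (a1 + z)) := right_fc hC hq'C hwC
    obtain ⟨h10, h11⟩ := face hC hq'wC ha1.1 hzC h9
    have h12 : a ∈ Fc (Cn m) (q' + (a1 + z)) := tra hC hq'wC (add_fc hC hq'wC h8 h10) hi
    exact tra hC hq'wC (add_fc hC hq'wC h12 h11) hP.mem'
  have hTw : Tf m q' (a1 + z) := hK.ovf q' (a1 + z) hq' hwM hovw
  -- (iii)
  have hP1 : Ef m ((a1 + z) + z') := (h2 V m hK q' (a1 + z) z' hq' hTw hr2 hP'.ex hz'q).1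
  have hP1C := hK.mem _ hP1
  have hwP1 : a1 + z ∈ Fc (Cn m) ((a1 + z) + z') := left_fc hC hwC hz'C
  have hz'P1 : z' ∈ Fc (Cn m) ((a1 + z) + z') := right_fc hC hwC hz'C
  obtain ⟨ha1P1, hzP1⟩ := face hC hP1C ha1.1 hzC hwP1
  -- (iv)
  have ha'M : a' ∈ Mh m := hK.low _ ha'C (by rw [hP'.rk3]) (self hC ha'C)
  have hPaC : ((a1 + z) + z') + a' ∈ Cn m := hC.add _ hP1C _ ha'C
  have hova : Ov (Cn m) ((a1 + z) + z') a' := by
    have hL := left_fc hC hP1C ha'C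
    have hR := right_fc hC hP1C ha'C
    refine ov_of hov ?_ ?_
    · have h8 : t ∈ Fc (Cn m) (((a1 + z) + z') + a') := tra hC hPaC hR hta'
      have h10 := tra hC hPaC hL ha1P1
      have h11 := tra hC hPaC hL hzP1
      have h12 : a ∈ Fc (Cn m) (((a1 + z) + z') + a') := tra hC hPaC (add_fc hC hPaC h8 h10) hi
      exact tra hC hPaC (add_fc hC hPaC h12 h11) hP.mem'
    · have h11 := tra hC hPaC hL hz'P1
      exact tra hC hPaC (add_fc hC hPaC hR h11) hP'.mem'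
  have hTa : Tf m ((a1 + z) + z') a' := hK.ovf _ a' hP1 ha'M hova
  have haa1C : a' + a1 ∈ Cn m := hC.add _ ha'C _ ha1.1
  have hle : a + a' ∈ Fc (Cn m) (a' + a1) := by
    have hL := left_fc hC ha'C ha1.1
    have hR := right_fc hC ha'C ha1.1
    have h8 := tra hC haa1C hL hta'
    exact add_fc hC haa1C (tra hC haa1C (add_fc hC haa1C h8 hR) hi) hL
  refine ⟨?_, hle, ?_⟩
  · -- (v)
    intro p hp hpa
    obtain ⟨x, hx, hxp, hxP⟩ := hK.meet p _ hp hP1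
    have hpC := hK.mem p hp
    have h8 : p ∈ Fc (Cn m) (a' + a1) := tra hC haa1C hle hpa
    have h9 : x ∈ Fc (Cn m) (a' + a1) := tra hC haa1C h8 hxp
    have h10 : x ∈ Fc (Cn m) a1 := foot_face hC hP1C ha'C ha1P1 hTa.foot hxP h9
    exact tra hC hpC hxp (ex_symm hC ha1 hx h10)
  · -- (vi)
    exact (h V m hK _ a' a1 hP1 hTa ha1P1 ha1.2.1).2.1

theorem notin {V : Type} [NormedAddCommGroup V] [NormedSpace ℝ V] [FiniteDimensional ℝ V]
    {C : Set V} {x y : V} {W : Submodule ℝ V} (hx : Ex C x) (hxW : x ∈ W) (h : y ∉ W) :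
    y ∉ Fc C x := by
  intro h1
  obtain ⟨c, hc⟩ := hx.2.2 y h1
  exact h (hc ▸ Submodule.smul_mem _ c hxW)

/-- the base is contained in the essential faces below `a + a'` -/
theorem lem2 (h : T_TFT) (h2 : T_R2A) (h3 : T_XSP) (h4 : T_SCE) (h7 : T_DSB) {V : Type}
    [NormedAddCommGroup V] [NormedSpace ℝ V] [FiniteDimensional ℝ V] {m : PN 2 → V}
    (hK : Kit m) {q q' a z a' z' t : V} (hq : Ef m q) (hq' : Ef m q')
    (hov : Ov (Cn m) q q') (hP : Pyr (Cn m) q a z) (hP' : Pyr (Cn m) q' a' z')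
    (hsc : Scx (Cn m) a) (ht : Ex (Cn m) t) (hta : t ∈ Fc (Cn m) a) (hta' : t ∈ Fc (Cn m) a') :
    (∀ p, Ef m p → p ∈ Fc (Cn m) (a + a') → a ∈ Fc (Cn m) p) ∧
      ∃ p, Ef m p ∧ p ∈ Fc (Cn m) (a + a') := by
  have hC := hK.cc
  obtain ⟨haC, hzC, -, -⟩ := hP.ds
  obtain ⟨ha'C, hz'C, -, -⟩ := hP'.ds
  have ha3 := hP.rk3
  obtain ⟨a1, ha1, ha1a, ha1W⟩ := h3 V (Cn m) a (Submodule.span ℝ {t}) hC haC (by
    rw [finrank_span_singleton ht.2.1, ha3]; norm_num)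
  obtain ⟨a2, ha2, ha2a, ha2W⟩ := h3 V (Cn m) a (Submodule.span ℝ {t} ⊔ Submodule.span ℝ {a1})
    hC haC (by
      have h8 := Submodule.finrank_add_le_finrank_add_finrank (Submodule.span ℝ {t})
        (Submodule.span ℝ {a1})
      rw [finrank_span_singleton ht.2.1, finrank_span_singleton ha1.2.1] at h8
      omega)
  have hn1 : a1 ∉ Fc (Cn m) t := notin ht (Submodule.mem_span_singleton_self t) ha1W
  have hn2 : a2 ∉ Fc (Cn m) t :=
    notin ht ((le_sup_left : Submodule.span ℝ {t} ≤ Submodule.span ℝ {t} ⊔ Submodule.span ℝ {a1})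
      (Submodule.mem_span_singleton_self t)) ha2W
  have hn3 : a2 ∉ Fc (Cn m) a1 :=
    notin ha1 ((le_sup_right : Submodule.span ℝ {a1} ≤
      Submodule.span ℝ {t} ⊔ Submodule.span ℝ {a1}) (Submodule.mem_span_singleton_self a1)) ha2W
  obtain ⟨hv1, hle, hvi⟩ := lem h h2 h4 h7 hK hq hq' hov hP hP' hsc ht hta hta' ha1 ha1a hn1
  obtain ⟨hv2, -, -⟩ := lem h h2 h4 h7 hK hq hq' hov hP hP' hsc ht hta hta' ha2 ha2a hn2
  constructor
  · intro p hp hpa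
    have hpC := hK.mem p hp
    have h8 := h4 V (Cn m) a a1 a2 hC haC hsc ha1 ha2 ha1a ha2a hn3
    exact tra hC hpC (add_fc hC hpC (hv1 p hp hpa) (hv2 p hp hpa)) h8
  · have h8C : a' + a1 ∈ Cn m := hC.add _ ha'C _ ha1.1
    obtain ⟨p, hp, hpE⟩ := hK.exi (a' + a1) h8C hvi
    refine ⟨p, hpE, ?_⟩
    have h9C : a + a' ∈ Cn m := hC.add _ haC _ ha'C
    have h9 : a' + a1 ∈ Fc (Cn m) (a + a') :=
      add_fc hC h9C (right_fc hC haC ha'C) (tra hC h9C (left_fc hC haC ha'C) ha1a)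
    exact tra hC h9C h9 hp

theorem pf_CA1 (h : T_TFT) (h2 : T_R2A) (h3 : T_XSP) (h4 : T_SCE) (h5 : T_TRR) (h6 : T_SPG)
    (h7 : T_DSB) : T_CA1 := by
  intro V _ _ _ m hK _ q q' a z a' z' t hq hq' hov hP hP' hsc hsc' ht hta hta'
  have hC := hK.cc
  have hqC := hK.mem q hq
  have hq'C := hK.mem q' hq'
  obtain ⟨haC, hzC, -, -⟩ := hP.ds
  obtain ⟨ha'C, hz'C, -, -⟩ := hP'.ds
  obtain ⟨haq, hzq⟩ := face hC hqC haC hzC hP.mem
  obtain ⟨ha'q, hz'q⟩ := face hC hq'C ha'C hz'C hP'.mem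
  obtain ⟨hA, p, hp, hpa⟩ := lem2 h h2 h3 h4 h7 hK hq hq' hov hP hP' hsc ht hta hta'
  obtain ⟨hA', -⟩ := lem2 h h2 h3 h4 h7 hK hq' hq (ov_symm hov) hP' hP hsc' ht hta' hta
  have hap := hA p hp hpa
  have ha'p := hA' p hp (by rw [add_comm]; exact hpa)
  have hpC := hK.mem p hp
  have hp4 := hK.rk4 p hp
  have hsup : Sp (Cn m) a ⊔ Sp (Cn m) a' ≤ Sp (Cn m) p :=
    sup_le (sp_mono hC hpC hap) (sp_mono hC hpC ha'p)
  obtain ⟨g, t0, -, ht0, -, -, -, -, hmeet⟩ := h5 V m hK q q' hq hq' hov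
  have htt0 : t ∈ Fc (Cn m) t0 := hmeet t (tra hC hqC haq hta) (tra hC hq'C ha'q hta')
  have ht0t : t0 ∈ Fc (Cn m) t := ex_symm hC ht0 ht htt0
  have hinf : Sp (Cn m) a ⊓ Sp (Cn m) a' ≤ Sp (Cn m) t := by
    intro v hv
    refine h6 V (Cn m) q a' t hC (hK.ftd q hq) ha'C ht.1 ?_ v (sp_mono hC hqC haq hv.1) hv.2
    intro r hr hr'
    exact tra hC ht.1 ht0t (hmeet r hr (tra hC hq'C ha'q hr'))
  have h8 := Submodule.finrank_sup_add_finrank_inf_eq (Sp (Cn m) a) (Sp (Cn m) a')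
  have h9 := Submodule.finrank_mono hsup
  have h10 := Submodule.finrank_mono hinf
  have h11 := hP.rk3
  have h12 := hP'.rk3
  have h13 := ex_rk hC ht
  unfold Pool.Agent.H61.KW.rk at h11 h12 h13 hp4
  omega

end Pool.Agent.H92.KW.CA1
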