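import Pool.Agent.H61.KW.TA

/-! Module EXI of the board kw_modules. -/

set_option autoImplicit false

namespace Pool.Agent.H92.KW.EXI

open Pool.Agent.H61.KV Pool.Agent.H61.KW

theorem pf_EXI : T_EXI := by
  intro V _ _ _ C q t hC hq hB
  obtain ⟨ht, ht0, hqt⟩ := hB
  have htC : t ∈ C := ht.1
  obtain ⟨c, hc, h1, h2⟩ := leave hC hq (w := -t) ((Sp C q).neg_mem (mem_sp ht))
    (neg_not_mem hC htC ht0)
  have e : q = (q + c • (-t)) + c • t := by
    rw [smul_neg]
    abel
  refine ⟨q + c • (-t), ⟨h1, ?_, h2⟩, ?_⟩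
  · intro h0
    apply hqt
    rw [h0, zero_add] at e
    rw [e]
    exact smul_fc hC htC hc.le (self hC htC)
  · have hs : q + c • (-t) ∈ C := h1.1
    have hsum : q + c • (-t) + t ∈ C := hC.add _ hs _ htC
    have h3 := left_fc hC hs htC
    have h4 := smul_fc hC hsum hc.le (right_fc hC hs htC)
    have h5 := add_fc hC hsum h3 h4
    rw [← e] at h5
    exact h5

end Pool.Agent.H92.KW.EXI
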