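import Pool.Agent.H61.KW.TC

set_option autoImplicit false
set_option linter.unusedSectionVars false
set_option linter.unusedVariables false

open Topology Set
open Pool.Agent.H59 Pool.Agent.H64.LB Pool.Agent.H61.KU Pool.Agent.H61.KV Pool.Agent.H61.KW

namespace Pool.Agent.H92.KW.R2A

theorem pf_R2A (h : T_TFT) (h2 : T_LDE) (h3 : T_XSP) (h4 : T_F5U) : T_R2A := by
  intro V _ _ _ m hK q g u hq hg hgr hu huq
  have hC := hK.cc
  have hqC := hK.mem q hq
  have hq4 := hK.rk4 q hq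
  -- a second extreme ray
  obtain ⟨u', hu', hu'q, hu'W⟩ := h3 V (Cn m) q (Submodule.span ℝ {u}) hC hqC (by
    rw [finrank_span_singleton hu.2.1, hq4]; norm_num)
  have hdis : ∀ t ∈ Fc (Cn m) u, t ∈ Fc (Cn m) u' → t = 0 := by
    intro t ht ht'
    by_contra h0
    have h5 : u' ∈ Fc (Cn m) t := ex_fc hC hu' ht' h0
    have h6 : u' ∈ Fc (Cn m) u := tra hC hu.1 ht h5
    obtain ⟨c, hc⟩ := hu.2.2 u' h6
    exact hu'W (hc ▸ Submodule.smul_mem _ c (Submodule.mem_span_singleton_self u))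
  obtain ⟨h9, -, -, -, h5⟩ := h2 V m hK q g u u' q hq hg (self hC hqC) huq hu'q hdis
  obtain ⟨-, -, h6, h6', -, -⟩ := h V m hK q g u hq hg huq hu.2.1
  obtain ⟨-, -, h7, -, -, -⟩ := h V m hK q g u' hq hg hu'q hu'.2.1
  have hu1 := ex_rk hC hu
  have hu1' := ex_rk hC hu'
  have h8 : rk (Cn m) (g + u) ≤ 5 := by omega
  have h10 : rk (Cn m) (g + u) ≠ 5 := by
    intro h11
    obtain ⟨β, z, y, hβ, -, -, -, -, -, -, -, -, h12, h13, -⟩ := h4 V m hK q g u hq hg hu huq h11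
    have h14 : rk (Cn m) β = 0 := by omega
    have h15 : β = 0 := eq_zero_of_rk hC (mem_C hβ) h14
    rw [h15, zero_add] at h13
    omega
  have h11 : rk (Cn m) (g + u) = 4 := by omega
  exact ⟨h6' h11, h11⟩

end Pool.Agent.H92.KW.R2A
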