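import Pool.Agent.H61.KW.TA

/-! Module SCE of the board kw_modules. -/

set_option autoImplicit false

namespace Pool.Agent.H92.KW.SCE

open Pool.Agent.H61.KV Pool.Agent.H61.KW

theorem pf_SCE : T_SCE := by
  intro V _ _ _ C a x y hC ha hS hx hy hxa hya hyx
  by_contra hna
  have hz : x + y ∈ Fc C a := add_fc hC ha hxa hya
  have hz0 : x + y ≠ 0 := fun h => hx.2.1 (sum_eq_zero hC hx.1 hy.1 h).1
  have hzx : Ex C (x + y) := hS _ ⟨hz, hz0, hna⟩
  have h1 : x ∈ Fc C (x + y) := left_fc hC hx.1 hy.1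
  have h2 : y ∈ Fc C (x + y) := right_fc hC hx.1 hy.1
  have h3 : x + y ∈ Fc C x := ex_fc hC hzx h1 hx.2.1
  exact hyx (tra hC hx.1 h3 h2)

end Pool.Agent.H92.KW.SCE
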